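import Pool.Agent.V1179.MH.GH12

set_option autoImplicit false

/-!
# Dilates of the values of several polynomials in the middle of record prime gaps

Write `f(Z) = log Z (log₂ Z)² log₄ Z / (log₃ Z)²` (the size of the longest prime gaps below `Z` that are
known, from the starting library).

Let `M_1, …, M_r` be nonzero integer polynomials in `m` variables of degree at most `D`, no two of them
proportional.  There is `κ > 0`, depending only on `m`, `r`, `D` and `ε`, such that for all large `T`
every box in `ℤ^(m+1)` with sides `≥ T ^ ε`, on which the numbers `x M_i(y)` are `≥ T ^ ε`, contains a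
point `(x, y_1, …, y_m)` such that no prime lies within `κ f(T)` of any of the `r` numbers
`x M_1(y), …, x M_r(y)`.

Examples (all members of the pattern lie in the middle of record prime gaps at the same time):

* Pythagorean triples `x (u² - v²), 2 x u v, x (u² + v²)`, and in the same way the solutions of all
  homogeneous equations with a polynomial parametrisation, such as `1/a + 1/b = 1/c`
  (`x u (u + v), x v (u + v), x u v`);
* all sums of nonempty subsets of `{x y_1, …, x y_m}` (`M_S = ∑_{i ∈ S} y_i`), so all finite sums of `m`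
  integers (the pattern of Folkman's theorem);
* geometric progressions `x, x y, …, x y^k`.

Modulo small primes such patterns have no point at which all members are equal to a given residue (a
Pythagorean triple `(e, e, e)` must be `0`), so the criteria used before do not apply.  The proof has a
new first step (`joint_surv`, `critZ`): Rankin's choice of the residue classes modulo small primes is
made for all `r` windows together; the primes outside of a set `Q` sieve with the class `0` (all
polynomials vanish at `x = 0`), and for the primes of `Q` the point is chosen greedily.  The second step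
is the covering theorem `Pool.Agent.Y961.JR.coverAbs` of the starting library.
-/

namespace Pool.Agent.Results.MP_7ba156_nt.DilatesOfPolynomialValues

open MvPolynomial

/-- the size of the largest known prime gaps below `Z` -/
noncomputable def f (Z : ℝ) : ℝ :=
  Real.log Z * (Real.log (Real.log Z)) ^ 2 * Real.log (Real.log (Real.log (Real.log Z))) /
    (Real.log (Real.log (Real.log Z))) ^ 2

/-- no prime is at distance at most `d` from `x` -/
def PrimeFreeAround (x d : ℝ) : Prop := ∀ q : ℕ, q.Prime → d < |(q : ℝ) - x|

/-- the number `x M(y)` for `z = (x, y)` -/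
noncomputable def value {m : ℕ} (M : MvPolynomial (Fin m) ℤ) (z : Fin (m + 1) → ℤ) : ℤ :=
  z 0 * eval (fun l => z l.succ) M

theorem result (m r D : ℕ) (hr : 1 ≤ r) (ε : ℝ) (hε : 0 < ε) :
    ∃ κ : ℝ, 0 < κ ∧ ∀ M : Fin r → MvPolynomial (Fin m) ℤ, (∀ i, (M i).totalDegree ≤ D) →
    (∀ i, M i ≠ 0) → (∀ i j, i ≠ j → ∀ u v : ℤ, v ≠ 0 → C u * M i ≠ C v * M j) →
    ∃ T₀ : ℝ, ∀ T : ℝ, T₀ ≤ T → ∀ (a : Fin (m + 1) → ℤ) (L : Fin (m + 1) → ℕ),
      (∀ j, T ^ ε ≤ L j) →
      (∀ z : Fin (m + 1) → ℤ, (∀ j, a j ≤ z j ∧ z j < a j + L j) →
        ∀ i, T ^ ε ≤ (value (M i) z : ℝ)) →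
      ∃ z : Fin (m + 1) → ℤ, (∀ j, a j ≤ z j ∧ z j < a j + L j) ∧
        ∀ i, PrimeFreeAround (value (M i) z) (κ * f T) := by
  obtain ⟨κ, hκ, h⟩ := Pool.Agent.V1179.MH.GH.dil_config m r D hr (min ε 1) (lt_min hε one_pos)
    (min_le_right _ _)
  refine ⟨κ, hκ, fun M hdeg hM0 hM => ?_⟩
  obtain ⟨T₀, hT⟩ := h M hdeg hM0 hM
  refine ⟨max T₀ 1, fun T hTT a L hL hval => ?_⟩
  have hT1 : 1 ≤ T := (le_max_right _ _).trans hTT
  have hmono : T ^ (min ε 1) ≤ T ^ ε := Real.rpow_le_rpow_of_exponent_le hT1 (min_le_left _ _)
  exact hT T ((le_max_left _ _).trans hTT) a L (fun j => hmono.trans (hL j))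
    (fun z hz i => hmono.trans (hval z hz i))

end Pool.Agent.Results.MP_7ba156_nt.DilatesOfPolynomialValues
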