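import Pool.Agent.Results.MP_31d0eb_nt.BalancedPrimes

set_option autoImplicit false

/-!
# MP_7ba156_nt: around almost every prime the intervals of almost all lengths behave as expected

The problem asks whether for every `t > 2` all intervals `(x, x + (log x) ^ t]`, `x` large, contain a
prime.  Let `θ > 0`, `X` large, `X ^ θ ≤ Y ≤ X`.  We show: for every `η > 0` there is `lam`, for all
`ε > 0` and `A = 2 ^ a - 1` there is `K` such that all but `η Y / log X` of the primes `p` in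
`(X, X + Y]` have the following property.

For all but at most `K` of the lengths `H = 2 ^ j`, `log X ≤ H ≤ Y / 2 ^ a`, there is one density
`μ / log X`, `1 / lam ≤ μ ≤ lam`, such that
`|π(x + H) - π(x) - μ H / log X| ≤ ε H / log X` for ALL real `x` with `|x - p| ≤ A H`.

In particular, for every `ρ > 0` and every `t ≥ 1` there is a length `H` between `(log X) ^ t` and
`(log X) ^ (t + ρ)` for which this holds: all intervals of length `H` at a distance of at most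
`A H` from `p` contain `(μ + O(ε)) H / log X` primes, so that all prime gaps there are shorter
than `H`.  The same is true for the elements of any set `P` of primes, `p` in `P`.
-/

namespace Pool.Agent.Results.MP_7ba156_nt.GapsSmallAtMostScales

open Finset Filter
open Pool.Agent.Results.MP_31d0eb_nt.BalancedPrimes

/-- all intervals `(x, x + H]` with `|x - p| ≤ (2 ^ a - 1) H` contain, up to `ε H / log X`, the same
number `μ H / log X` of elements of `P`, with `1 / lam ≤ μ ≤ lam` -/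
def Uniform (P : Set ℕ) (lam ε : ℝ) (a X p H : ℕ) : Prop :=
  ∃ μ : ℝ, 1 / lam ≤ μ ∧ μ ≤ lam ∧ ∀ x : ℝ, |x - p| ≤ (2 ^ a - 1) * H →
    |(count P x H : ℝ) - μ * H / Real.log X| ≤ ε * H / Real.log X

/-- `Uniform` for all but at most `K` of the lengths `H = 2 ^ j`, `log X ≤ H ≤ Y / 2 ^ a` -/
def UniformAtMostScales (P : Set ℕ) (lam ε : ℝ) (a K X Y p : ℕ) : Prop :=
  {j : ℕ | Real.log X ≤ (2 : ℝ) ^ j ∧ 2 ^ (j + a) ≤ Y ∧ ¬ Uniform P lam ε a X p (2 ^ j)}.ncard ≤ K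

/-- for every `t ≥ 1` some length `H = 2 ^ j` between `(log X) ^ t` and `(log X) ^ (t + ρ)` is such
that `Uniform` holds, as long as `2 ^ a (log X) ^ (t + ρ) ≤ Y` -/
def UniformSomewhere (P : Set ℕ) (lam ε ρ : ℝ) (a X Y p : ℕ) : Prop :=
  ∀ t : ℝ, 1 ≤ t → 2 ^ a * Real.log X ^ (t + ρ) ≤ Y →
    ∃ j : ℕ, Real.log X ^ t ≤ (2 : ℝ) ^ j ∧ (2 : ℝ) ^ j ≤ Real.log X ^ (t + ρ) ∧
      Uniform P lam ε a X p (2 ^ j)

lemma finite_bad (Y a : ℕ) : {j : ℕ | 2 ^ (j + a) ≤ Y}.Finite := by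
  apply Set.Finite.subset (Finset.finite_toSet (Finset.range (Y + 1)))
  intro j hj
  rw [mem_coe, mem_range]
  have hj' : 2 ^ (j + a) ≤ Y := hj
  have : j < 2 ^ j := Nat.lt_two_pow_self
  have h2 : 2 ^ j ≤ 2 ^ (j + a) := Nat.pow_le_pow_right (by norm_num) (by omega)
  omega

lemma scales_of (P : Set ℕ) (lam ε : ℝ) (a K X Y p : ℕ) (hL : 1 ≤ Real.log X)
    (h : {j : ℕ | Real.log X ≤ (2 : ℝ) ^ j ∧ 2 ^ j ≤ Y ∧
      ¬ ConstantDensity P lam (ε / 2 ^ a) X p (2 ^ j)}.ncard ≤ K) :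
    UniformAtMostScales P lam ε a K X Y p := by
  have hL0 : 0 < Real.log X := by linarith
  refine le_trans ?_ h
  have hfin : {j : ℕ | Real.log X ≤ (2 : ℝ) ^ j ∧ 2 ^ j ≤ Y ∧
      ¬ ConstantDensity P lam (ε / 2 ^ a) X p (2 ^ j)}.Finite := by
    apply Set.Finite.subset (finite_bad Y 0)
    rintro j ⟨-, j2, -⟩
    simpa using j2
  refine Set.ncard_le_ncard_of_injOn (fun j => j + a) ?_ ?_ hfin
  · rintro j ⟨j1, j2, j3⟩
    refine ⟨?_, j2, fun hc => j3 ?_⟩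
    · refine j1.trans ?_
      exact pow_le_pow_right₀ (by norm_num) (by omega)
    · obtain ⟨μ, m1, m2, m3⟩ := hc
      refine ⟨μ, m1, m2, ?_⟩
      intro x hx
      rw [abs_le] at hx
      push_cast at hx m3 ⊢
      have ha : (1 : ℝ) ≤ 2 ^ a := one_le_pow₀ (by norm_num)
      have hj : (0 : ℝ) < 2 ^ j := by positivity
      have e : (2 : ℝ) ^ (j + a) = 2 ^ a * 2 ^ j := by
        rw [pow_add]
        ring
      have h1 := m3 x ((2 : ℝ) ^ j) (by rw [e]; nlinarith [hx.1]) hj.le (by rw [e]; nlinarith [hx.2])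
      refine h1.trans (le_of_eq ?_)
      rw [e]
      field_simp
  · intro i _ j _ hij
    simpa using hij

lemma somewhere_of (P : Set ℕ) (lam ε ρ : ℝ) (a K X Y p : ℕ) (hL : 1 ≤ Real.log X)
    (hbig : (2 : ℝ) ^ (K + 1) ≤ Real.log X ^ ρ)
    (h : UniformAtMostScales P lam ε a K X Y p) : UniformSomewhere P lam ε ρ a X Y p := by
  intro t ht hY
  have hL0 : 0 < Real.log X := by linarith
  by_contra hcon
  push Not at hcon
  have h1t : 1 ≤ Real.log X ^ t := Real.one_le_rpow hL (by linarith)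
  obtain ⟨n, n1, n2⟩ := exists_nat_pow_near h1t (one_lt_two : (1 : ℝ) < 2)
  have hsub : (fun i => n + 1 + i) '' (Finset.range (K + 1) : Set ℕ) ⊆
      {j : ℕ | Real.log X ≤ (2 : ℝ) ^ j ∧ 2 ^ (j + a) ≤ Y ∧ ¬ Uniform P lam ε a X p (2 ^ j)} := by
    rintro _ ⟨i, hi, rfl⟩
    rw [mem_coe, mem_range] at hi
    have b1 : Real.log X ^ t ≤ (2 : ℝ) ^ (n + 1 + i) := by
      refine n2.le.trans ?_
      exact pow_le_pow_right₀ (by norm_num) (by omega)
    have b2 : (2 : ℝ) ^ (n + 1 + i) ≤ Real.log X ^ (t + ρ) := by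
      rw [Real.rpow_add hL0]
      calc (2 : ℝ) ^ (n + 1 + i) ≤ 2 ^ (n + (K + 1)) := pow_le_pow_right₀ (by norm_num) (by omega)
        _ = 2 ^ n * 2 ^ (K + 1) := pow_add _ _ _
        _ ≤ Real.log X ^ t * Real.log X ^ ρ := by gcongr
    refine ⟨?_, ?_, hcon _ b1 b2⟩
    · refine le_trans ?_ b1
      calc Real.log X = Real.log X ^ (1 : ℝ) := (Real.rpow_one _).symm
        _ ≤ _ := Real.rpow_le_rpow_of_exponent_le hL ht
    · have : (2 : ℝ) ^ (n + 1 + i + a) ≤ Y := by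
        rw [pow_add]
        calc (2 : ℝ) ^ (n + 1 + i) * 2 ^ a ≤ Real.log X ^ (t + ρ) * 2 ^ a := by gcongr
          _ = 2 ^ a * Real.log X ^ (t + ρ) := by ring
          _ ≤ Y := hY
      exact_mod_cast this
  have hfin : {j : ℕ | Real.log X ≤ (2 : ℝ) ^ j ∧ 2 ^ (j + a) ≤ Y ∧
      ¬ Uniform P lam ε a X p (2 ^ j)}.Finite := by
    apply Set.Finite.subset (finite_bad Y a)
    rintro j ⟨-, j2, -⟩
    exact j2
  have h2 := Set.ncard_le_ncard hsub hfin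
  rw [Set.ncard_image_of_injective _ (fun i j hij => by simpa using hij),
    Set.ncard_coe_finset, card_range] at h2
  have h3 : _ ≤ K := h
  omega

theorem main (θ : ℝ) (h0 : 0 < θ) (η : ℝ) (hη : 0 < η) : ∃ lam : ℝ, 1 ≤ lam ∧ ∀ ε ρ : ℝ, 0 < ε →
    0 < ρ → ∀ a : ℕ, ∃ K : ℕ, ∀ᶠ X : ℕ in atTop, ∀ Y : ℕ, (X : ℝ) ^ θ ≤ Y → Y ≤ X →
      ∀ P ⊆ primes,
      ({p : ℕ | p ∈ P ∧ X < p ∧ p ≤ X + Y ∧ ¬ (UniformAtMostScales P lam ε a K X Y p ∧
        UniformSomewhere P lam ε ρ a X Y p)}.ncard : ℝ) ≤ η * (Y / Real.log X) := by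
  obtain ⟨lam, hlam, h⟩ := Pool.Agent.Results.MP_31d0eb_nt.BalancedPrimes.result.2.1 θ h0 η hη
  refine ⟨lam, hlam, fun ε ρ hε hρ a => ?_⟩
  obtain ⟨K, hK⟩ := h (ε / 2 ^ a) (by positivity)
  refine ⟨K, ?_⟩
  have hlogX : Tendsto (fun X : ℕ => Real.log (X : ℝ)) atTop atTop :=
    Real.tendsto_log_atTop.comp tendsto_natCast_atTop_atTop
  filter_upwards [hK, hlogX.eventually_ge_atTop 1,
    ((tendsto_rpow_atTop hρ).comp hlogX).eventually_ge_atTop ((2 : ℝ) ^ (K + 1))] with X hX hL hbig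
  intro Y hY hYX P hP
  refine le_trans ?_ (hX Y hY hYX P hP)
  apply Nat.cast_le.2
  apply Set.ncard_le_ncard
  · rintro p ⟨p1, p2, p3, p4⟩
    refine ⟨p1, p2, p3, fun hR => p4 ?_⟩
    have h1 := scales_of P lam ε a K X Y p hL hR.2
    exact ⟨h1, somewhere_of P lam ε ρ a K X Y p hL hbig h1⟩
  · apply Set.Finite.subset (Finset.finite_toSet (Ioc X (X + Y)))
    rintro p ⟨-, p2, p3, -⟩
    rw [mem_coe, mem_Ioc]
    exact ⟨p2, p3⟩

/-- **Intervals of almost all lengths around almost every prime.**  (1) for all sets `P` of primes, with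
a bound for the number of exceptions in `(X, X + Y]`, `X ^ θ ≤ Y ≤ X`, `θ > 0` arbitrary; (2), (3): for
some `θ < 1` (and for all `θ` for which `(X, X + Y]` contains `≫ Y / log X` primes) the exceptions
are at most a proportion `η` of the primes of the interval. -/
theorem result :
    (∀ θ : ℝ, 0 < θ → ∀ η : ℝ, 0 < η → ∃ lam : ℝ, 1 ≤ lam ∧ ∀ ε ρ : ℝ, 0 < ε → 0 < ρ →
      ∀ a : ℕ, ∃ K : ℕ, ∀ᶠ X : ℕ in atTop, ∀ Y : ℕ, (X : ℝ) ^ θ ≤ Y → Y ≤ X → ∀ P ⊆ primes,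
        ({p : ℕ | p ∈ P ∧ X < p ∧ p ≤ X + Y ∧ ¬ (UniformAtMostScales P lam ε a K X Y p ∧
          UniformSomewhere P lam ε ρ a X Y p)}.ncard : ℝ) ≤ η * (Y / Real.log X)) ∧
    (∃ θ : ℝ, 0 < θ ∧ θ < 1 ∧ ShortIntervals θ) ∧
    (∀ θ : ℝ, 0 < θ → ShortIntervals θ → ∀ η : ℝ, 0 < η → ∃ lam : ℝ, 1 ≤ lam ∧
      ∀ ε ρ : ℝ, 0 < ε → 0 < ρ → ∀ a : ℕ, ∃ K : ℕ, ∀ᶠ X : ℕ in atTop, ∀ Y : ℕ,
        (X : ℝ) ^ θ ≤ Y → Y ≤ X →
        ({p : ℕ | p.Prime ∧ X < p ∧ p ≤ X + Y ∧ ¬ (UniformAtMostScales primes lam ε a K X Y p ∧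
          UniformSomewhere primes lam ε ρ a X Y p)}.ncard : ℝ) ≤
          η * ({p : ℕ | p.Prime ∧ X < p ∧ p ≤ X + Y}.ncard : ℝ)) := by
  refine ⟨main, Pool.Agent.Results.MP_31d0eb_nt.BalancedPrimes.result.2.2.1, ?_⟩
  rintro θ h0 ⟨c₁, hc₁, hS⟩ η hη
  obtain ⟨lam, hlam, h⟩ := main θ h0 (η * c₁) (by positivity)
  refine ⟨lam, hlam, fun ε ρ hε hρ a => ?_⟩
  obtain ⟨K, hK⟩ := h ε ρ hε hρ a
  refine ⟨K, ?_⟩
  filter_upwards [hK, hS] with X hX1 hX2
  intro Y hY hYX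
  refine (hX1 Y hY hYX primes subset_rfl).trans ?_
  calc η * c₁ * (Y / Real.log X) = η * (c₁ * Y / Real.log X) := by ring
    _ ≤ _ := mul_le_mul_of_nonneg_left (hX2 Y hY hYX) hη.le

end Pool.Agent.Results.MP_7ba156_nt.GapsSmallAtMostScales
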