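import Pool.Agent.V1179.MH.GH18

set_option autoImplicit false

/-!
# All subset sums and all subset products in the middle of record prime gaps

Write `f(Z) = log Z (log₂ Z)² log₄ Z / (log₃ Z)²` (the size of the longest prime gaps below `Z` that are
known, from the starting library).

For every `k ≥ 1` and `ε > 0` there is `κ > 0` such that for all large `T` every box in `ℤ^k` with sides
`≥ T ^ ε` and coordinates `≥ T ^ ε` contains a point `(x_1, …, x_k)` such that no prime lies within
`κ f(T)` of any of the sums `∑_{j ∈ S} x_j` (`S` nonempty) nor of any of the products `∏_{j ∈ S} x_j`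
(`S` nonempty).

This is the pattern of Hindman's conjecture on finite sums and products: all sums and products of
nonempty subsets of `k` integers (for `k = 2`: `x, y, x + y, x y`).  Here all of them lie in the middle of
record prime gaps, in every box with sides `T ^ ε`, although the integers with this property are a set
of density zero.

The proof uses `Pool.Agent.V1179.MH.GH.critZ` (Rankin's choice of the residue classes modulo small
primes for all windows together, made for `MP_7ba156_nt.DilatesOfPolynomialValues`, and the covering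
theorem `Pool.Agent.Y961.JR.coverAbs` of the starting library).  The new input is that modulo a prime
two different subset sums or products are almost independent, away from the value `0`.
-/

namespace Pool.Agent.Results.MP_7ba156_nt.SubsetSumsAndProducts

/-- the size of the largest known prime gaps below `Z` -/
noncomputable def f (Z : ℝ) : ℝ :=
  Real.log Z * (Real.log (Real.log Z)) ^ 2 * Real.log (Real.log (Real.log (Real.log Z))) /
    (Real.log (Real.log (Real.log Z))) ^ 2

/-- no prime is at distance at most `d` from `x` -/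
def PrimeFreeAround (x d : ℝ) : Prop := ∀ q : ℕ, q.Prime → d < |(q : ℝ) - x|

theorem result (k : ℕ) (hk : 1 ≤ k) (ε : ℝ) (hε : 0 < ε) :
    ∃ κ : ℝ, 0 < κ ∧ ∃ T₀ : ℝ, ∀ T : ℝ, T₀ ≤ T → ∀ (a : Fin k → ℤ) (L : Fin k → ℕ),
      (∀ j, T ^ ε ≤ a j) → (∀ j, T ^ ε ≤ L j) →
      ∃ x : Fin k → ℤ, (∀ j, a j ≤ x j ∧ x j < a j + L j) ∧
        ∀ S : Finset (Fin k), S.Nonempty →
          PrimeFreeAround ((∑ j ∈ S, x j : ℤ) : ℝ) (κ * f T) ∧
          PrimeFreeAround ((∏ j ∈ S, x j : ℤ) : ℝ) (κ * f T) := by
  obtain ⟨κ, hκ, T₀, h⟩ := Pool.Agent.V1179.MH.GH.fv_config k hk (min ε 1)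
    (lt_min hε one_pos) (min_le_right _ _)
  refine ⟨κ, hκ, max T₀ 1, fun T hTT a L ha hL => ?_⟩
  have hT1 : 1 ≤ T := (le_max_right _ _).trans hTT
  have hmono : T ^ (min ε 1) ≤ T ^ ε := Real.rpow_le_rpow_of_exponent_le hT1 (min_le_left _ _)
  obtain ⟨z, hz, hz2⟩ := h T ((le_max_left _ _).trans hTT) a L (fun j => hmono.trans (ha j))
    (fun j => hmono.trans (hL j))
  have hsum : ∀ S : Finset (Fin k), S.Nonempty →
      PrimeFreeAround ((∑ j ∈ S, z j : ℤ) : ℝ) (κ * f T) := by
    intro S hS q hq
    exact hz2 (true, S) ⟨hS, fun h => by simp at h⟩ q hq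
  refine ⟨z, hz, fun S hS => ⟨hsum S hS, ?_⟩⟩
  by_cases hS2 : 2 ≤ S.card
  · intro q hq
    exact hz2 (false, S) ⟨hS, fun _ => hS2⟩ q hq
  · have h1 : S.card = 1 := by
      have := Finset.card_pos.mpr hS
      omega
    obtain ⟨t, rfl⟩ := Finset.card_eq_one.mp h1
    have := hsum {t} hS
    rw [Finset.sum_singleton] at this
    rw [Finset.prod_singleton]
    exact this

end Pool.Agent.Results.MP_7ba156_nt.SubsetSumsAndProducts
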